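import Pool.Agent.T9h65.MB.Der

/-!
(B5) the PCR refutation from the repeated squares.
-/

set_option autoImplicit false
set_option linter.unusedSectionVars false

open MvPolynomial

namespace Pool.Agent.T9h65.MB

open Pool.Agent.T9h19.MB

section
variable {V : Type}

theorem msize_X (x : V × Bool) : msize (X x : Pol V) ≤ 1 := by
  classical
  unfold msize
  rw [MvPolynomial.support_X]
  simp

theorem msize_one : msize (1 : Pol V) ≤ 1 := by
  have := msize_C (V := V) 1
  rwa [map_one] at this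

theorem msize_tr (K : Cl V) : msize (tr K) ≤ 1 := by
  classical
  unfold tr
  induction K using Finset.induction_on with
  | empty => simpa using msize_one
  | insert l K hl ih =>
    rw [Finset.prod_insert hl]
    exact (msize_X_mul _ _).trans ih

theorem msize_axB (v : V) : msize (axB v) ≤ 3 := by
  unfold axB
  refine (msize_sub _ _).trans ?_
  have h1 := msize_X (v, true)
  have h2 : msize (X (v, true) ^ 2 : Pol V) ≤ 1 := by
    rw [pow_two]
    exact (msize_X_mul _ _).trans h1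
  omega

theorem msize_axT (v : V) : msize (axT v) ≤ 3 := by
  unfold axT
  refine (msize_sub _ _).trans ?_
  have h1 := msize_X (v, true)
  have h2 := msize_X (v, false)
  have h3 := msize_add (X (v, true) : Pol V) (X (v, false))
  have h4 := msize_one (V := V)
  omega

end

section
variable {V : Type} [Fintype V] [DecidableEq V]

/-- The cost of one `Stat`. -/
def cst (g v s : ℕ) : ℕ :=
  g * (3 + s * ((20 + s) * 3) + g * (s * 3)) + 2 * (v * (3 + s * ((20 + s) * 3) + v * (s * 3))) +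
    (v * (s * 3) + v * (s * 3)) + (g * (s * 3) + (v * (s * 3) + v * (s * 3)))

theorem cst_mono (g v s M : ℕ) (hg : g ≤ M) (hv : v ≤ M) (hs : s ≤ M) :
    cst g v s ≤ cst M M M := by
  have a1 : s * 3 ≤ M * 3 := Nat.mul_le_mul_right _ hs
  have a2 : s * ((20 + s) * 3) ≤ M * ((20 + M) * 3) :=
    Nat.mul_le_mul hs (Nat.mul_le_mul_right _ (by omega))
  have a3 : g * (s * 3) ≤ M * (M * 3) := Nat.mul_le_mul hg a1
  have a4 : v * (s * 3) ≤ M * (M * 3) := Nat.mul_le_mul hv a1
  have a5 : g * (3 + s * ((20 + s) * 3) + g * (s * 3)) ≤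
      M * (3 + M * ((20 + M) * 3) + M * (M * 3)) := Nat.mul_le_mul hg (by omega)
  have a6 : v * (3 + s * ((20 + s) * 3) + v * (s * 3)) ≤
      M * (3 + M * ((20 + M) * 3) + M * (M * 3)) := Nat.mul_le_mul hv (by omega)
  unfold cst
  omega

theorem cst_bound (M : ℕ) (hM : 1 ≤ M) : cst M M M ≤ 1000 * M ^ 3 := by
  unfold cst
  have h1 : M ≤ M ^ 3 := Nat.le_self_pow (by norm_num) M
  have h2 : M ^ 2 ≤ M ^ 3 := Nat.pow_le_pow_right hM (by norm_num)
  ring_nf
  omega

theorem ext_stat {G : Finset (Cl V)} {s : ℕ} {p : Pol V} (h : Stat G s p)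
    (L : List (Pol V)) (hL : Der G L) :
    ∃ L', Ext G L L' (cst G.card (Fintype.card V) s) ∧ In L' p := by
  classical
  obtain ⟨t, u, w, h1, h2, h3, h4⟩ := h
  have hts : ∀ K ∈ G, msize (t K) ≤ s := fun K hK =>
    (Finset.single_le_sum (f := fun K => msize (t K)) (fun _ _ => Nat.zero_le _) hK).trans
      (by omega)
  have huw : ∀ v, msize (u v) + msize (w v) ≤ s := fun v =>
    (Finset.single_le_sum (f := fun v => msize (u v) + msize (w v)) (fun _ _ => Nat.zero_le _)
      (Finset.mem_univ v)).trans (by omega)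
  obtain ⟨L1, e1, i1⟩ := ext_sum (G := G) (fun K => tr K) t s G.card G (fun K _ => h3 K) le_rfl hts
    (fun K _ => (msize_tr K).trans (by norm_num))
    (fun K hK L hL => ⟨_, (ext_cons hL (Or.inl ⟨K, hK, rfl⟩)).1.mono
      ((msize_tr K).trans (by norm_num)), (ext_cons hL (Or.inl ⟨K, hK, rfl⟩)).2⟩) L hL
  obtain ⟨L2, e2, i2⟩ := ext_sum (G := G) (fun v => axB v) u s (Fintype.card V) Finset.univ
    (fun v _ => (h4 v).1) le_rfl (fun v _ => by have := huw v; omega) (fun v _ => msize_axB v)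
    (fun v _ L hL => ⟨_, (ext_cons hL (Or.inr (Or.inl ⟨v, rfl⟩))).1.mono (msize_axB v),
      (ext_cons hL (Or.inr (Or.inl ⟨v, rfl⟩))).2⟩) L1 e1.1
  obtain ⟨L3, e3, i3⟩ := ext_sum (G := G) (fun v => axT v) w s (Fintype.card V) Finset.univ
    (fun v _ => (h4 v).2) le_rfl (fun v _ => by have := huw v; omega) (fun v _ => msize_axT v)
    (fun v _ L hL => ⟨_, (ext_cons hL (Or.inr (Or.inr (Or.inl ⟨v, rfl⟩)))).1.mono (msize_axT v),
      (ext_cons hL (Or.inr (Or.inr (Or.inl ⟨v, rfl⟩)))).2⟩) L2 e2.1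
  obtain ⟨L4, e4, i4⟩ := ext_lin e3.1 (e3.2.1 _ i2) i3 1 1
  obtain ⟨L5, e5, i5⟩ := ext_lin e4.1 (e4.2.1 _ (e3.2.1 _ (e2.2.1 _ i1))) i4 1 1
  have a1 : msize (∑ K ∈ G, t K * tr K) ≤ G.card * (s * 3) := by
    refine (msize_sum _ _).trans ?_
    refine (Finset.sum_le_card_nsmul _ _ (s * 3) fun K hK => ?_).trans (by simp)
    exact (msize_pmul _ _).trans (Nat.mul_le_mul (hts K hK) ((msize_tr K).trans (by norm_num)))
  have a2 : msize (∑ v, u v * axB v) ≤ Fintype.card V * (s * 3) := by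
    refine (msize_sum _ _).trans ?_
    refine (Finset.sum_le_card_nsmul _ _ (s * 3) fun v _ => ?_).trans (by simp)
    exact (msize_pmul _ _).trans (Nat.mul_le_mul (by have := huw v; omega) (msize_axB v))
  have a3 : msize (∑ v, w v * axT v) ≤ Fintype.card V * (s * 3) := by
    refine (msize_sum _ _).trans ?_
    refine (Finset.sum_le_card_nsmul _ _ (s * 3) fun v _ => ?_).trans (by simp)
    exact (msize_pmul _ _).trans (Nat.mul_le_mul (by have := huw v; omega) (msize_axT v))
  refine ⟨L5, ((((e1.trans e2).trans e3).trans e4).trans e5).mono ?_, ?_⟩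
  · have b4 : msize (C 1 * ∑ v, u v * axB v + C 1 * ∑ v, w v * axT v) ≤
        Fintype.card V * (s * 3) + Fintype.card V * (s * 3) :=
      (msize_add _ _).trans (Nat.add_le_add ((msize_Cmul _ _).trans a2) ((msize_Cmul _ _).trans a3))
    have b5 : msize (C 1 * ∑ K ∈ G, t K * tr K +
        C 1 * (C 1 * ∑ v, u v * axB v + C 1 * ∑ v, w v * axT v)) ≤
        G.card * (s * 3) + (Fintype.card V * (s * 3) + Fintype.card V * (s * 3)) :=
      (msize_add _ _).trans (Nat.add_le_add ((msize_Cmul _ _).trans a1) ((msize_Cmul _ _).trans b4))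
    unfold cst
    rw [Finset.card_univ]
    omega
  · rw [h1, Finset.sum_add_distrib]
    simpa using i5

/-- The repeated squares `Y_i - c_i` can be derived. -/
theorem ext_levels {G : Finset (Cl V)} (n s : ℕ) (hn : 0 < n) (Y : ℕ → Pol V)
    (hY : ∀ i < n, msize (Y i) ≤ s ∧ (Y i).totalDegree ≤ 20) (h0 : Stat G s (2 * Y 0 - 1))
    (h1 : ∀ i, i + 1 < n → Stat G s (Y (i + 1) - Y i ^ 2)) (i : ℕ) :
    i < n → ∃ L, Der G L ∧ In L (Y i - C (cc i)) ∧
      lsz L ≤ (i + 1) * (cst G.card (Fintype.card V) s + (s + 1) * ((20 + (s + 1)) * (s + 1)) +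
        (s + 1)) := by
  have hsub : ∀ i < n, msize (Y i - C (cc i)) ≤ s + 1 := fun i hi =>
    (msize_sub _ _).trans (Nat.add_le_add (hY i hi).1 (msize_C _))
  induction i with
  | zero =>
    intro _
    obtain ⟨L1, e1, i1⟩ := ext_stat h0 [] Der.nil
    obtain ⟨L2, e2, i2⟩ := ext_lin e1.1 i1 i1 (1 / 2) 0
    have h3 : (C (1 / 2) * (2 * Y 0 - 1) + C 0 * (2 * Y 0 - 1) : Pol V) = Y 0 - C (cc 0) := by
      rw [cc_zero, map_zero, zero_mul, add_zero, mul_sub, mul_one, ← mul_assoc]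
      have : (C (1 / 2) * 2 : Pol V) = 1 := by
        rw [show (2 : Pol V) = C 2 from (map_ofNat C 2).symm, ← map_mul]
        norm_num
      rw [this, one_mul]
    rw [h3] at e2 i2
    refine ⟨L2, e2.1, i2, ?_⟩
    have h4 := (e1.trans e2).2.2
    have h5 : lsz ([] : List (Pol V)) = 0 := rfl
    have h6 := hsub 0 hn
    rw [h5] at h4
    omega
  | succ i ih =>
    intro hi
    obtain ⟨L, hL, hi0, hsz⟩ := ih (by omega)
    obtain ⟨L1, e1, i1⟩ := ext_stat (h1 i hi) L hL
    have hp : (Y i + C (cc i)).totalDegree ≤ 20 := by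
      refine (MvPolynomial.totalDegree_add _ _).trans (max_le (hY i (by omega)).2 ?_)
      rw [MvPolynomial.totalDegree_C]; omega
    obtain ⟨L2, e2, i2⟩ := ext_pol (Y i - C (cc i)) (Y i + C (cc i)) hp L1 e1.1 (e1.2.1 _ hi0)
    obtain ⟨L3, e3, i3⟩ := ext_lin e2.1 (e2.2.1 _ i1) i2 1 1
    have h3 : (C 1 * (Y (i + 1) - Y i ^ 2) + C 1 * ((Y i + C (cc i)) * (Y i - C (cc i))) : Pol V) =
        Y (i + 1) - C (cc (i + 1)) := by
      rw [cc_succ, map_one, map_pow]
      ring
    rw [h3] at e3 i3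
    refine ⟨L3, e3.1, i3, ?_⟩
    have h4 := ((e1.trans e2).trans e3).2.2
    have h6 := hsub (i + 1) hi
    have h7 : msize (Y i + C (cc i)) ≤ s + 1 :=
      (msize_add _ _).trans (Nat.add_le_add (hY i (by omega)).1 (msize_C _))
    have h8 : msize (Y i + C (cc i)) * ((20 + msize (Y i + C (cc i))) * msize (Y i - C (cc i))) ≤
        (s + 1) * ((20 + (s + 1)) * (s + 1)) :=
      Nat.mul_le_mul h7 (Nat.mul_le_mul (by omega) (hsub i (by omega)))
    rw [Nat.succ_mul]
    omega

/-- From a derivation to a refutation. -/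
theorem der_steps {G : Finset (Cl V)} {L : List (Pol V)} (h : Der G L) :
    ∀ i < L.length, (∃ K ∈ G, L.reverse.getD i 0 = tr K) ∨ (∃ v, L.reverse.getD i 0 = axB v) ∨
      (∃ v, L.reverse.getD i 0 = axT v) ∨
      (∃ x : V × Bool, ∃ j < i, L.reverse.getD i 0 = X x * L.reverse.getD j 0) ∨
      (∃ j < i, ∃ k < i, ∃ a b : ℚ,
        L.reverse.getD i 0 = C a * L.reverse.getD j 0 + C b * L.reverse.getD k 0) := by
  induction h with
  | nil =>
    intro i hi
    simp at hi
  | cons q L hL hq ih =>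
    have hlt : ∀ j < L.length, (q :: L).reverse.getD j 0 = L.reverse.getD j 0 := by
      intro j hj
      rw [List.reverse_cons, List.getD_append]
      simpa using hj
    have heq : (q :: L).reverse.getD L.length 0 = q := by
      rw [List.reverse_cons, List.getD_append_right _ _ _ _ (by simp)]
      simp
    have hmem : ∀ r ∈ L, ∃ j < L.length, L.reverse.getD j 0 = r := by
      intro r hr
      obtain ⟨j, hj, h⟩ := List.mem_iff_getElem.mp (List.mem_reverse.mpr hr)
      rw [List.length_reverse] at hj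
      refine ⟨j, hj, ?_⟩
      rw [List.getD_eq_getElem _ _ (by simpa using hj)]
      exact h
    intro i hi
    rw [List.length_cons] at hi
    rcases Nat.lt_succ_iff_lt_or_eq.mp hi with hi | hi
    · have hj : ∀ j < i, (q :: L).reverse.getD j 0 = L.reverse.getD j 0 := fun j hj =>
        hlt j (by omega)
      rw [hlt i hi]
      rcases ih i hi with h | h | h | ⟨x, j, h1, h2⟩ | ⟨j, h1, k, h2, a, b, h3⟩
      · exact Or.inl h
      · exact Or.inr (Or.inl h)
      · exact Or.inr (Or.inr (Or.inl h))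
      · exact Or.inr (Or.inr (Or.inr (Or.inl ⟨x, j, h1, by rw [hj j h1]; exact h2⟩)))
      · exact Or.inr (Or.inr (Or.inr (Or.inr ⟨j, h1, k, h2, a, b, by
          rw [hj j h1, hj k h2]; exact h3⟩)))
    · rw [hi, heq]
      rcases hq with h | h | h | ⟨x, r, h1, h2⟩ | ⟨r, h1, r', h2, a, b, h3⟩
      · exact Or.inl h
      · exact Or.inr (Or.inl h)
      · exact Or.inr (Or.inr (Or.inl h))
      · obtain ⟨j, hj, e⟩ := hmem r h1
        exact Or.inr (Or.inr (Or.inr (Or.inl ⟨x, j, hj, by rw [hlt j hj, e]; exact h2⟩)))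
      · obtain ⟨j, hj, e⟩ := hmem r h1
        obtain ⟨k, hk, e'⟩ := hmem r' h2
        exact Or.inr (Or.inr (Or.inr (Or.inr ⟨j, hj, k, hk, a, b, by
          rw [hlt j hj, hlt k hk, e, e']; exact h3⟩)))

theorem der_pcr {G : Finset (Cl V)} {L : List (Pol V)} (h : Der G L) (h1 : In L (1 : Pol V)) :
    ∃ π : PCR G, π.size ≤ lsz L := by
  classical
  have hm : (1 : Pol V) ∈ L := by
    rcases h1 with h1 | h1
    · exact absurd h1 one_ne_zero
    · exact h1
  obtain ⟨j, hj, hj1⟩ := List.mem_iff_getElem.mp (List.mem_reverse.mpr hm)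
  rw [List.length_reverse] at hj
  have hst := der_steps h
  refine ⟨⟨j + 1, fun i => L.reverse.getD i 0, fun i hi => hst i (by omega), by omega, ?_⟩, ?_⟩
  · simp only [Nat.add_sub_cancel]
    rw [List.getD_eq_getElem _ _ (by simpa using hj)]
    exact hj1
  · simp only [PCR.size]
    have e1 : lsz L = ∑ i ∈ Finset.range L.length, msize (L.reverse.getD i 0) := by
      have e2 : lsz L = (L.reverse.map msize).sum := by
        rw [List.map_reverse, List.sum_reverse]
        rfl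
      rw [e2]
      rw [← List.length_reverse (as := L)]
      generalize L.reverse = M
      induction M with
      | nil => simp
      | cons a M ih =>
        rw [List.map_cons, List.sum_cons, ih, List.length_cons, Finset.sum_range_succ']
        simp only [List.getD_cons_succ, List.getD_cons_zero]
        rw [add_comm]
    rw [e1]
    exact Finset.sum_le_sum_of_subset (Finset.range_subset_range.mpr (by omega))

theorem pcr_upper (G : Finset (Cl V)) (n s : ℕ) (hn : 0 < n) (Y : ℕ → Pol V)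
    (hY : ∀ i < n, msize (Y i) ≤ s ∧ (Y i).totalDegree ≤ 20) (h0 : Stat G s (2 * Y 0 - 1))
    (h1 : ∀ i, i + 1 < n → Stat G s (Y (i + 1) - Y i ^ 2)) (h2 : Stat G s (Y (n - 1) ^ 2)) :
    ∃ π : PCR G, π.size ≤ 10 ^ 6 * (n + s + G.card + Fintype.card V + 1) ^ 10 := by
  obtain ⟨L, hL, i0, hsz⟩ := ext_levels n s hn Y hY h0 h1 (n - 1) (by omega)
  have hn1 : n - 1 + 1 = n := by omega
  rw [hn1] at hsz
  have hp : (Y (n - 1) + C (cc (n - 1))).totalDegree ≤ 20 := by
    refine (MvPolynomial.totalDegree_add _ _).trans (max_le (hY (n - 1) (by omega)).2 ?_)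
    rw [MvPolynomial.totalDegree_C]; omega
  obtain ⟨L1, e1, i1⟩ := ext_stat h2 L hL
  obtain ⟨L2, e2, i2⟩ := ext_pol (Y (n - 1) - C (cc (n - 1))) (Y (n - 1) + C (cc (n - 1))) hp L1
    e1.1 (e1.2.1 _ i0)
  obtain ⟨L3, e3, i3⟩ := ext_lin e2.1 (e2.2.1 _ i1) i2 (1 / cc n) (-(1 / cc n))
  have hcc : cc n = cc (n - 1) ^ 2 := by
    rw [← cc_succ, hn1]
  have hc0 : cc n ≠ 0 := (cc_pos n).ne'
  have h3 : (C (1 / cc n) * Y (n - 1) ^ 2 + C (-(1 / cc n)) *
      ((Y (n - 1) + C (cc (n - 1))) * (Y (n - 1) - C (cc (n - 1)))) : Pol V) = 1 := by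
    have e4 : (C (1 / cc n) * C (cc (n - 1)) ^ 2 : Pol V) = 1 := by
      rw [← map_pow, ← map_mul, ← hcc, one_div_mul_cancel hc0, map_one]
    rw [map_neg]
    linear_combination e4
  rw [h3] at e3 i3
  obtain ⟨π, hπ⟩ := der_pcr e3.1 i3
  refine ⟨π, hπ.trans ?_⟩
  have h4 := ((e1.trans e2).trans e3).2.2
  have h6 : msize (Y (n - 1) - C (cc (n - 1))) ≤ s + 1 :=
    (msize_sub _ _).trans (Nat.add_le_add (hY _ (by omega)).1 (msize_C _))
  have h7 : msize (Y (n - 1) + C (cc (n - 1))) ≤ s + 1 :=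
    (msize_add _ _).trans (Nat.add_le_add (hY _ (by omega)).1 (msize_C _))
  have h8 : msize (Y (n - 1) + C (cc (n - 1))) * ((20 + msize (Y (n - 1) + C (cc (n - 1)))) *
      msize (Y (n - 1) - C (cc (n - 1)))) ≤ (s + 1) * ((20 + (s + 1)) * (s + 1)) :=
    Nat.mul_le_mul h7 (Nat.mul_le_mul (by omega) h6)
  have h9 := msize_one (V := V)
  set g := G.card
  set v := Fintype.card V
  set M := n + s + g + v + 1 with hM
  have hbig : lsz L3 ≤ (n + 1) * (cst g v s + (s + 1) * ((20 + (s + 1)) * (s + 1)) + (s + 1)) := by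
    rw [add_mul, one_mul]
    omega
  refine hbig.trans ?_
  have hs1 : s + 1 ≤ M := by omega
  have hs2 : s ≤ M := by omega
  have hg1 : g ≤ M := by omega
  have hv1 : v ≤ M := by omega
  have hM1 : 1 ≤ M := by omega
  have hn2 : n + 1 ≤ 2 * M := by omega
  have c1 : cst g v s ≤ cst M M M := cst_mono g v s M hg1 hv1 hs2
  have c2 : cst M M M ≤ 1000 * M ^ 3 := cst_bound M hM1
  have c3 : (s + 1) * ((20 + (s + 1)) * (s + 1)) ≤ 21 * M ^ 3 := by
    have h1 : 20 + (s + 1) ≤ 21 * M := by omega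
    calc (s + 1) * ((20 + (s + 1)) * (s + 1)) ≤ M * ((21 * M) * M) :=
          Nat.mul_le_mul hs1 (Nat.mul_le_mul h1 hs1)
      _ = 21 * M ^ 3 := by ring
  have c4 : s + 1 ≤ M ^ 3 := hs1.trans (Nat.le_self_pow (by norm_num) M)
  calc (n + 1) * (cst g v s + (s + 1) * ((20 + (s + 1)) * (s + 1)) + (s + 1))
      ≤ (2 * M) * (1022 * M ^ 3) := Nat.mul_le_mul hn2 (by omega)
    _ = 2044 * M ^ 4 := by ring
    _ ≤ 10 ^ 6 * M ^ 10 := Nat.mul_le_mul (by norm_num) (Nat.pow_le_pow_right hM1 (by norm_num))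

end

end Pool.Agent.T9h65.MB
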