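import Pool.Agent.T9h19.MB.Defs

/-!
(B4) the SOS refutation from the repeated squares.
-/

set_option autoImplicit false
set_option linter.unusedSectionVars false

open MvPolynomial

namespace Pool.Agent.T9h65.MB

open Pool.Agent.T9h19.MB

section
variable {V : Type}

theorem msize_zero : msize (0 : Pol V) = 0 := by simp [msize]

theorem msize_add (p q : Pol V) : msize (p + q) ≤ msize p + msize q := by
  classical
  unfold msize
  exact (Finset.card_le_card MvPolynomial.support_add).trans (Finset.card_union_le _ _)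

theorem msize_Cmul (a : ℚ) (p : Pol V) : msize (C a * p) ≤ msize p := by
  classical
  unfold msize
  apply Finset.card_le_card
  intro m hm
  rw [MvPolynomial.mem_support_iff] at hm ⊢
  intro h
  apply hm
  rw [MvPolynomial.coeff_C_mul, h, mul_zero]

theorem msize_C (a : ℚ) : msize (C a : Pol V) ≤ 1 := by
  classical
  unfold msize
  have : (C a : Pol V).support ⊆ {0} := by
    intro m hm
    rw [MvPolynomial.mem_support_iff, MvPolynomial.coeff_C] at hm
    by_contra h
    apply hm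
    rw [if_neg]
    intro h'
    exact h (by simp [h'])
  exact (Finset.card_le_card this).trans (by simp)

theorem msize_neg (p : Pol V) : msize (-p) = msize p := by
  classical
  unfold msize
  rw [MvPolynomial.support_neg]

theorem msize_sub (p q : Pol V) : msize (p - q) ≤ msize p + msize q := by
  rw [sub_eq_add_neg]
  exact (msize_add p (-q)).trans (by rw [msize_neg])

theorem two_squares (e : ℕ) : ∃ p q : ℚ, (2 : ℚ) ^ e = p ^ 2 + q ^ 2 := by
  induction e with
  | zero => exact ⟨1, 0, by norm_num⟩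
  | succ e ih =>
    obtain ⟨p, q, h⟩ := ih
    refine ⟨p + q, p - q, ?_⟩
    rw [pow_succ, h]
    ring

end

section
variable {V : Type} [Fintype V] [DecidableEq V]

theorem stat_zero (G : Finset (Cl V)) : Stat G 0 0 := by
  refine ⟨fun _ => 0, fun _ => 0, fun _ => 0, ?_, ?_, ?_, ?_⟩
  · simp
  · simp [msize]
  · intro C; simp
  · intro v; simp

theorem stat_mono {G : Finset (Cl V)} {s s' : ℕ} {p : Pol V} (h : Stat G s p) (hs : s ≤ s') :
    Stat G s' p := by
  obtain ⟨t, u, w, h1, h2, h3, h4⟩ := h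
  exact ⟨t, u, w, h1, h2.trans hs, h3, h4⟩

theorem stat_add {G : Finset (Cl V)} {s s' : ℕ} {p p' : Pol V} (h : Stat G s p)
    (h' : Stat G s' p') : Stat G (s + s') (p + p') := by
  obtain ⟨t, u, w, h1, h2, h3, h4⟩ := h
  obtain ⟨t', u', w', h1', h2', h3', h4'⟩ := h'
  refine ⟨fun c => t c + t' c, fun v => u v + u' v, fun v => w v + w' v, ?_, ?_, ?_, ?_⟩
  · rw [h1, h1']
    have e1 : ∑ C ∈ G, (t C + t' C) * tr C = ∑ C ∈ G, t C * tr C + ∑ C ∈ G, t' C * tr C := by
      rw [← Finset.sum_add_distrib]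
      exact Finset.sum_congr rfl fun _ _ => by ring
    have e2 : ∑ v, ((u v + u' v) * axB v + (w v + w' v) * axT v) =
        ∑ v, (u v * axB v + w v * axT v) + ∑ v, (u' v * axB v + w' v * axT v) := by
      rw [← Finset.sum_add_distrib]
      exact Finset.sum_congr rfl fun _ _ => by ring
    rw [e1, e2]
    ring
  · refine le_trans ?_ (Nat.add_le_add h2 h2')
    have e1 : ∑ C ∈ G, msize (t C + t' C) ≤ ∑ C ∈ G, msize (t C) + ∑ C ∈ G, msize (t' C) := by
      rw [← Finset.sum_add_distrib]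
      exact Finset.sum_le_sum fun _ _ => msize_add _ _
    have e2 : ∑ v, (msize (u v + u' v) + msize (w v + w' v)) ≤
        ∑ v, (msize (u v) + msize (w v)) + ∑ v, (msize (u' v) + msize (w' v)) := by
      rw [← Finset.sum_add_distrib]
      refine Finset.sum_le_sum fun v _ => ?_
      have := msize_add (u v) (u' v)
      have := msize_add (w v) (w' v)
      omega
    exact (Nat.add_le_add e1 e2).trans (by omega)
  · intro c
    exact (MvPolynomial.totalDegree_add _ _).trans (max_le (h3 c) (h3' c))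
  · intro v
    exact ⟨(MvPolynomial.totalDegree_add _ _).trans (max_le (h4 v).1 (h4' v).1),
      (MvPolynomial.totalDegree_add _ _).trans (max_le (h4 v).2 (h4' v).2)⟩

theorem totalDegree_Cmul (a : ℚ) (p : Pol V) : (C a * p).totalDegree ≤ p.totalDegree := by
  refine (MvPolynomial.totalDegree_mul _ _).trans ?_
  rw [MvPolynomial.totalDegree_C]
  omega

theorem stat_smul {G : Finset (Cl V)} {s : ℕ} {p : Pol V} (a : ℚ) (h : Stat G s p) :
    Stat G s (C a * p) := by
  obtain ⟨t, u, w, h1, h2, h3, h4⟩ := h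
  refine ⟨fun c => C a * t c, fun v => C a * u v, fun v => C a * w v, ?_, ?_, ?_, ?_⟩
  · rw [h1, mul_add, Finset.mul_sum, Finset.mul_sum]
    congr 1
    · exact Finset.sum_congr rfl fun _ _ => by ring
    · exact Finset.sum_congr rfl fun _ _ => by ring
  · refine le_trans (Nat.add_le_add (Finset.sum_le_sum fun c _ => msize_Cmul a (t c))
      (Finset.sum_le_sum fun v _ => Nat.add_le_add (msize_Cmul a (u v)) (msize_Cmul a (w v)))) h2
  · exact fun c => (totalDegree_Cmul a _).trans (h3 c)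
  · exact fun v => ⟨(totalDegree_Cmul a _).trans (h4 v).1, (totalDegree_Cmul a _).trans (h4 v).2⟩

theorem stat_sum_range {G : Finset (Cl V)} {s : ℕ} {p : ℕ → Pol V} (n : ℕ)
    (h : ∀ i < n, Stat G s (p i)) : Stat G (n * s) (∑ i ∈ Finset.range n, p i) := by
  induction n with
  | zero => simpa using stat_zero G
  | succ n ih =>
    rw [Finset.sum_range_succ]
    have := stat_add (ih fun i hi => h i (by omega)) (h n (by omega))
    exact stat_mono this (by rw [Nat.succ_mul])

/-- `c_i = 2 ^ (-2 ^ i)`. -/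
noncomputable def cc (i : ℕ) : ℚ := ((2 : ℚ) ^ (2 ^ i))⁻¹

theorem cc_succ (i : ℕ) : cc (i + 1) = cc i ^ 2 := by
  unfold cc
  rw [inv_pow, ← pow_mul, pow_succ]

theorem cc_zero : cc 0 = 1 / 2 := by
  unfold cc; norm_num

theorem cc_pos (i : ℕ) : 0 < cc i := by unfold cc; positivity

/-- The weights of the squares. -/
noncomputable def aa (n i : ℕ) : ℚ := (2 : ℚ) ^ n / 2 ^ (i + 1) * 2 ^ (2 ^ (i + 1))

theorem aa_rel (n i : ℕ) : 2 * cc (i + 1) * aa n (i + 1) = aa n i := by
  unfold aa cc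
  have h : (2 : ℚ) ^ (2 ^ (i + 1 + 1)) = 2 ^ (2 ^ (i + 1)) * 2 ^ (2 ^ (i + 1)) := by
    rw [← pow_add]; congr 1; ring
  rw [h]
  have h0 : (2 : ℚ) ^ (2 ^ (i + 1)) ≠ 0 := by positivity
  field_simp
  ring

theorem aa_cc (n i : ℕ) : aa n i * cc (i + 1) = (2 : ℚ) ^ n / 2 ^ (i + 1) := by
  unfold aa cc
  have h0 : (2 : ℚ) ^ (2 ^ (i + 1)) ≠ 0 := by positivity
  field_simp

theorem aa_zero (n : ℕ) : aa n 0 = 2 * 2 ^ n := by
  unfold aa; norm_num; ring

theorem sum_aa_cc (n m : ℕ) : ∑ i ∈ Finset.range m, aa n i * cc (i + 1) =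
    (2 : ℚ) ^ n - 2 ^ n / 2 ^ m := by
  induction m with
  | zero => simp
  | succ m ih =>
    rw [Finset.sum_range_succ, ih, aa_cc, pow_succ]
    ring

theorem aa_sq (n i : ℕ) (hi : i < n) : ∃ p q : ℚ, aa n i = p ^ 2 + q ^ 2 := by
  obtain ⟨p, q, h⟩ := two_squares (n - (i + 1) + 2 ^ (i + 1))
  refine ⟨p, q, ?_⟩
  rw [← h]
  unfold aa
  have h2 : (2 : ℚ) ^ n = 2 ^ (n - (i + 1)) * 2 ^ (i + 1) := by
    rw [← pow_add]; congr 1; omega
  have h3 : (2 : ℚ) ^ (i + 1) ≠ 0 := by positivity
  rw [pow_add (2 : ℚ) (n - (i + 1)), h2]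
  field_simp

omit [Fintype V] [DecidableEq V] in
/-- The telescoping identity. -/
theorem telescope (n m : ℕ) (Z : ℕ → Pol V) :
    ∑ i ∈ Finset.range m, C (aa n i) * ((Z i - C (cc i)) ^ 2 + (Z (i + 1) - Z i ^ 2)) =
      C (2 * cc m * aa n m) * Z m - C (2 * cc 0 * aa n 0) * Z 0 +
        C (∑ i ∈ Finset.range m, aa n i * cc (i + 1)) := by
  induction m with
  | zero => simp
  | succ m ih =>
    rw [Finset.sum_range_succ, ih, Finset.sum_range_succ, aa_rel, cc_succ]
    simp only [map_add, map_mul, map_pow]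
    have h2 : (C (2 : ℚ) : Pol V) = 2 := by
      exact map_ofNat C 2
    rw [h2]
    ring

theorem sos_upper (G : Finset (Cl V)) (n s : ℕ) (hn : 0 < n) (Y : ℕ → Pol V)
    (hY : ∀ i < n, msize (Y i) ≤ s) (h0 : Stat G s (2 * Y 0 - 1))
    (h1 : ∀ i, i + 1 < n → Stat G s (Y (i + 1) - Y i ^ 2)) (h2 : Stat G s (Y (n - 1) ^ 2)) :
    ∃ π : SOS G, π.size ≤ 100 * (n + s + G.card + Fintype.card V + 1) ^ 4 := by
  classical
  set Z : ℕ → Pol V := fun i => if i < n then Y i else 0 with hZ
  have hZs : ∀ i, msize (Z i) ≤ s := by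
    intro i
    simp only [hZ]
    split_ifs with h
    · exact hY i h
    · rw [msize_zero]; omega
  have hZ0 : Z 0 = Y 0 := by simp [hZ, hn]
  have hZn : Z n = 0 := by simp [hZ]
  have hE : ∀ i < n, Stat G s (Z (i + 1) - Z i ^ 2) := by
    intro i hi
    by_cases h : i + 1 < n
    · have := h1 i h
      simpa [hZ, h, hi] using this
    · have hin : i = n - 1 := by omega
      subst hin
      have h3 : ¬ (n - 1 + 1 < n) := by omega
      have h4 := stat_smul (-1) h2
      have h5 : Z (n - 1 + 1) - Z (n - 1) ^ 2 = C (-1) * Y (n - 1) ^ 2 := by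
        simp only [hZ, if_neg h3, if_pos hi, map_neg, map_one]
        ring
      rw [h5]
      exact h4
  -- the ideal part
  have hI : Stat G (n * s + s) (∑ i ∈ Finset.range n, C (aa n i) * (Z (i + 1) - Z i ^ 2) +
      C ((2 : ℚ) ^ n) * (2 * Y 0 - 1)) :=
    stat_add (stat_sum_range n fun i hi => stat_smul _ (hE i hi)) (stat_smul _ h0)
  have hkey : -1 = ∑ i ∈ Finset.range n, C (aa n i) * (Z i - C (cc i)) ^ 2 +
      (∑ i ∈ Finset.range n, C (aa n i) * (Z (i + 1) - Z i ^ 2) +
      C ((2 : ℚ) ^ n) * (2 * Y 0 - 1)) := by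
    have ht := telescope n n Z
    rw [hZn, sum_aa_cc, cc_zero, aa_zero, hZ0] at ht
    simp only [mul_add] at ht
    rw [Finset.sum_add_distrib] at ht
    have h3 : (2 : ℚ) ^ n / 2 ^ n = 1 := by
      rw [div_self]; positivity
    rw [h3] at ht
    have h4 : (2 * (1 / 2) * (2 * 2 ^ n) : ℚ) = 2 ^ n * 2 := by ring
    have h5 : (C ((2 : ℚ) ^ n * 2) : Pol V) = C ((2 : ℚ) ^ n) * 2 := by
      rw [map_mul]
      congr 1
    rw [h4, map_sub, map_one, mul_zero, zero_sub, h5] at ht
    have h6 : ∑ i ∈ Finset.range n, C (aa n i) * (Z i - C (cc i)) ^ 2 =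
      -(C ((2 : ℚ) ^ n) * 2 * Y 0) + (C (2 ^ n) - 1) -
        ∑ i ∈ Finset.range n, C (aa n i) * (Z (i + 1) - Z i ^ 2) := by
      rw [← ht]; ring
    rw [h6]
    ring
  obtain ⟨t, u, w, e1, e2, e3, e4⟩ := hI
  have hpq : ∀ i : ℕ, ∃ pq : ℚ × ℚ, i < n → aa n i = pq.1 ^ 2 + pq.2 ^ 2 := by
    intro i
    by_cases hi : i < n
    · obtain ⟨p, q, h⟩ := aa_sq n i hi
      exact ⟨(p, q), fun _ => h⟩
    · exact ⟨(0, 0), fun h => absurd h hi⟩
  choose pq hpq using hpq
  let r : Fin (n + n) → Pol V := Fin.addCases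
    (fun i : Fin n => C (pq i).1 * (Z i - C (cc i)))
    (fun i : Fin n => C (pq i).2 * (Z i - C (cc i)))
  have hr : ∑ k, r k ^ 2 = ∑ i ∈ Finset.range n, C (aa n i) * (Z i - C (cc i)) ^ 2 := by
    rw [Fin.sum_univ_add, Finset.sum_range, ← Finset.sum_add_distrib]
    refine Finset.sum_congr rfl fun i _ => ?_
    simp only [r, Fin.addCases_left, Fin.addCases_right]
    rw [hpq i i.2, map_add, map_pow, map_pow]
    ring
  have hrs : ∑ k, msize (r k) ≤ (n + n) * (s + 1) := by
    have hk : ∀ i : Fin n, msize (Z i - C (cc i)) ≤ s + 1 := fun i =>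
      (msize_sub _ _).trans (Nat.add_le_add (hZs _) (msize_C _))
    rw [Fin.sum_univ_add]
    have e1 : ∑ i : Fin n, msize (r (Fin.castAdd n i)) ≤ n * (s + 1) := by
      refine (Finset.sum_le_card_nsmul _ _ (s + 1) fun i _ => ?_).trans (by simp)
      simp only [r, Fin.addCases_left]
      exact (msize_Cmul _ _).trans (hk i)
    have e2 : ∑ i : Fin n, msize (r (Fin.natAdd n i)) ≤ n * (s + 1) := by
      refine (Finset.sum_le_card_nsmul _ _ (s + 1) fun i _ => ?_).trans (by simp)
      simp only [r, Fin.addCases_right]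
      exact (msize_Cmul _ _).trans (hk i)
    rw [add_mul]
    exact Nat.add_le_add e1 e2
  refine ⟨⟨n + n, r, t, u, w, ?_⟩, ?_⟩
  · rw [hr, add_assoc, ← e1]
    exact hkey
  · simp only [SOS.size]
    have e5 : ∑ C ∈ G, (msize (t C) + 1) = ∑ C ∈ G, msize (t C) + G.card := by
      rw [Finset.sum_add_distrib]; simp
    have e6 : ∑ v, (msize (u v) + msize (w v) + 5) =
        ∑ v, (msize (u v) + msize (w v)) + Fintype.card V * 5 := by
      rw [Finset.sum_add_distrib]; simp
    rw [e5, e6]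
    set g := G.card
    set v := Fintype.card V
    set M := n + s + g + v + 1 with hM
    have b1 : ∑ k, msize (r k) + (∑ C ∈ G, msize (t C) + g) +
        (∑ v, (msize (u v) + msize (w v)) + v * 5) ≤
        (n + n) * (s + 1) + (n * s + s) + g + v * 5 := by omega
    refine b1.trans ?_
    have b2 : (n + n) * (s + 1) + (n * s + s) + g + v * 5 ≤ 100 * M ^ 2 := by
      have hn1 : n ≤ M := by omega
      have hs1 : s + 1 ≤ M := by omega
      have hs2 : s ≤ M := by omega
      have hg1 : g ≤ M := by omega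
      have hv1 : v ≤ M := by omega
      have hM1 : 1 ≤ M := by omega
      have c1 : (n + n) * (s + 1) ≤ (M + M) * M := Nat.mul_le_mul (by omega) hs1
      have c2 : n * s ≤ M * M := Nat.mul_le_mul hn1 hs2
      nlinarith
    refine b2.trans (Nat.mul_le_mul_left _ (Nat.pow_le_pow_right (by omega) (by norm_num)))

end

end Pool.Agent.T9h65.MB
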