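import Pool.Agent.T9h65.MB.SosUp

/-!
PCR derivations as lists of lines.
-/

set_option autoImplicit false
set_option linter.unusedSectionVars false

open MvPolynomial

namespace Pool.Agent.T9h65.MB

open Pool.Agent.T9h19.MB

section
variable {V : Type}

/-- The line `q` follows from the lines in `L`. -/
def Just (G : Finset (Cl V)) (L : List (Pol V)) (q : Pol V) : Prop :=
  (∃ C ∈ G, q = tr C) ∨ (∃ v, q = axB v) ∨ (∃ v, q = axT v) ∨
    (∃ x : V × Bool, ∃ r ∈ L, q = X x * r) ∨
    (∃ r ∈ L, ∃ r' ∈ L, ∃ a b : ℚ, q = C a * r + C b * r')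

/-- A derivation, the last line first. -/
inductive Der (G : Finset (Cl V)) : List (Pol V) → Prop
  | nil : Der G []
  | cons (q : Pol V) (L : List (Pol V)) : Der G L → Just G L q → Der G (q :: L)

/-- The number of monomials. -/
noncomputable def lsz (L : List (Pol V)) : ℕ := (L.map msize).sum

/-- Derived, or zero. -/
def In (L : List (Pol V)) (q : Pol V) : Prop := q = 0 ∨ q ∈ L

/-- `L'` is a derivation which contains everything of `L`, with at most `B` more monomials. -/
def Ext (G : Finset (Cl V)) (L L' : List (Pol V)) (B : ℕ) : Prop :=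
  Der G L' ∧ (∀ x, In L x → In L' x) ∧ lsz L' ≤ lsz L + B

theorem Ext.refl {G : Finset (Cl V)} {L : List (Pol V)} (h : Der G L) : Ext G L L 0 :=
  ⟨h, fun _ hx => hx, by omega⟩

theorem Ext.trans {G : Finset (Cl V)} {L L' L'' : List (Pol V)} {B B' : ℕ} (h : Ext G L L' B)
    (h' : Ext G L' L'' B') : Ext G L L'' (B + B') :=
  ⟨h'.1, fun x hx => h'.2.1 x (h.2.1 x hx), by have := h.2.2; have := h'.2.2; omega⟩

theorem Ext.mono {G : Finset (Cl V)} {L L' : List (Pol V)} {B B' : ℕ} (h : Ext G L L' B)
    (hB : B ≤ B') : Ext G L L' B' := ⟨h.1, h.2.1, by have := h.2.2; omega⟩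

theorem ext_cons {G : Finset (Cl V)} {L : List (Pol V)} (h : Der G L) {q : Pol V}
    (hq : Just G L q) : Ext G L (q :: L) (msize q) ∧ In (q :: L) q := by
  refine ⟨⟨Der.cons q L h hq, ?_, ?_⟩, Or.inr (by simp)⟩
  · rintro x (hx | hx)
    · exact Or.inl hx
    · exact Or.inr (List.mem_cons_of_mem _ hx)
  · simp only [lsz, List.map_cons, List.sum_cons]
    omega

theorem ext_mul {G : Finset (Cl V)} {L : List (Pol V)} (h : Der G L) {q : Pol V}
    (hq : In L q) (x : V × Bool) : ∃ L', Ext G L L' (msize (X x * q)) ∧ In L' (X x * q) := by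
  rcases hq with hq | hq
  · refine ⟨L, (Ext.refl h).mono (Nat.zero_le _), Or.inl (by rw [hq, mul_zero])⟩
  · exact ⟨_, ext_cons h (Or.inr (Or.inr (Or.inr (Or.inl ⟨x, q, hq, rfl⟩))))⟩

theorem ext_lin {G : Finset (Cl V)} {L : List (Pol V)} (h : Der G L) {q r : Pol V}
    (hq : In L q) (hr : In L r) (a b : ℚ) :
    ∃ L', Ext G L L' (msize (C a * q + C b * r)) ∧ In L' (C a * q + C b * r) := by
  rcases hq with hq | hq
  · rcases hr with hr | hr
    · exact ⟨L, (Ext.refl h).mono (Nat.zero_le _), Or.inl (by rw [hq, hr]; simp)⟩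
    · refine ⟨_, ext_cons h (Or.inr (Or.inr (Or.inr (Or.inr ⟨r, hr, r, hr, 0, b, ?_⟩))))⟩
      rw [hq]; simp
  · rcases hr with hr | hr
    · refine ⟨_, ext_cons h (Or.inr (Or.inr (Or.inr (Or.inr ⟨q, hq, q, hq, a, 0, ?_⟩))))⟩
      rw [hr]; simp
    · exact ⟨_, ext_cons h (Or.inr (Or.inr (Or.inr (Or.inr ⟨q, hq, r, hr, a, b, rfl⟩))))⟩

theorem msize_monomial_mul (m : (V × Bool) →₀ ℕ) (q : Pol V) :
    msize (monomial m 1 * q) ≤ msize q := by
  classical
  unfold msize
  have h : (monomial m (1 : ℚ) * q).support ⊆ q.support.image (fun m' => m + m') := by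
    intro k hk
    rw [MvPolynomial.mem_support_iff, MvPolynomial.coeff_monomial_mul'] at hk
    split_ifs at hk with h1
    · rw [Finset.mem_image]
      refine ⟨k - m, ?_, ?_⟩
      · rw [MvPolynomial.mem_support_iff]
        intro h2
        exact hk (by rw [h2]; simp)
      · exact add_tsub_cancel_of_le h1
    · exact absurd rfl hk
  exact (Finset.card_le_card h).trans Finset.card_image_le

theorem msize_X_mul (x : V × Bool) (q : Pol V) : msize (X x * q) ≤ msize q :=
  msize_monomial_mul _ q

/-- Multiplication with a monomial. -/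
theorem ext_mon_aux {G : Finset (Cl V)} (q : Pol V) (d : ℕ) :
    ∀ (m : (V × Bool) →₀ ℕ), m.degree = d → ∀ (L : List (Pol V)), Der G L → In L q →
      ∃ L', Ext G L L' (d * msize q) ∧ In L' (monomial m 1 * q) := by
  classical
  induction d with
  | zero =>
    intro m hm L hL hq
    have hm0 : m = 0 := by
      rw [Finsupp.degree_eq_zero_iff] at hm
      exact hm
    refine ⟨L, (Ext.refl hL).mono (Nat.zero_le _), ?_⟩
    rw [hm0]
    simpa using hq
  | succ d ih =>
    intro m hm L hL hq
    have hne : m ≠ 0 := by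
      rintro rfl
      simp at hm
    obtain ⟨i, hi⟩ := Finsupp.support_nonempty_iff.mpr hne
    have hi1 : 1 ≤ m i := Nat.one_le_iff_ne_zero.mpr (Finsupp.mem_support_iff.mp hi)
    have hdec : m = Finsupp.single i 1 + (m - Finsupp.single i 1) := by
      rw [add_tsub_cancel_of_le]
      exact Finsupp.single_le_iff.mpr hi1
    have hdeg : (m - Finsupp.single i 1).degree = d := by
      have := congrArg Finsupp.degree hdec
      rw [map_add, Finsupp.degree_single, hm] at this
      omega
    obtain ⟨L1, e1, i1⟩ := ih _ hdeg L hL hq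
    obtain ⟨L2, e2, i2⟩ := ext_mul e1.1 i1 i
    refine ⟨L2, (e1.trans e2).mono ?_, ?_⟩
    · rw [add_mul, one_mul]
      refine Nat.add_le_add_left ?_ _
      exact (msize_X_mul _ _).trans (msize_monomial_mul _ _)
    · have h3 : monomial m (1 : ℚ) * q = X i * (monomial (m - Finsupp.single i 1) 1 * q) := by
        rw [← mul_assoc]
        congr 1
        conv_lhs => rw [hdec]
        rw [X, monomial_mul, one_mul]
      rw [h3]
      exact i2

theorem ext_mon {G : Finset (Cl V)} (q : Pol V) (m : (V × Bool) →₀ ℕ) (d : ℕ)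
    (hm : m.degree ≤ d) (L : List (Pol V)) (hL : Der G L) (hq : In L q) :
      ∃ L', Ext G L L' (d * msize q) ∧ In L' (monomial m 1 * q) := by
  obtain ⟨L', h1, h2⟩ := ext_mon_aux q m.degree m rfl L hL hq
  exact ⟨L', h1.mono (Nat.mul_le_mul_right _ hm), h2⟩

theorem msize_sum {ι : Type} (I : Finset ι) (f : ι → Pol V) :
    msize (∑ i ∈ I, f i) ≤ ∑ i ∈ I, msize (f i) := by
  classical
  induction I using Finset.induction_on with
  | empty => simp [msize]
  | insert a I ha ih =>
    rw [Finset.sum_insert ha, Finset.sum_insert ha]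
    exact (msize_add _ _).trans (Nat.add_le_add_left ih _)

theorem ext_zero {G : Finset (Cl V)} {L : List (Pol V)} (h : Der G L) :
    ∃ L', Ext G L L' 0 ∧ In L' 0 := ⟨L, Ext.refl h, Or.inl rfl⟩

/-- Multiplication with a polynomial of degree at most `20`. -/
theorem ext_pol_aux {G : Finset (Cl V)} (q : Pol V) (a : ((V × Bool) →₀ ℕ) → ℚ) (N : ℕ)
    (I : Finset ((V × Bool) →₀ ℕ)) (hI : ∀ m ∈ I, m.degree ≤ 20) (hN : I.card ≤ N)
    (L : List (Pol V)) (hL : Der G L) (hq : In L q) :
      ∃ L', Ext G L L' (I.card * ((20 + N) * msize q)) ∧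
        In L' (∑ m ∈ I, C (a m) * (monomial m 1 * q)) := by
  classical
  induction I using Finset.induction_on with
  | empty =>
    simpa using ext_zero hL
  | insert m I hm ih =>
    rw [Finset.card_insert_of_notMem hm] at hN ⊢
    obtain ⟨L1, e1, i1⟩ := ih (fun m' hm' => hI m' (Finset.mem_insert_of_mem hm')) (by omega)
    obtain ⟨L2, e2, i2⟩ := ext_mon (G := G) q m 20 (hI m (Finset.mem_insert_self _ _)) L1 e1.1
      (e1.2.1 _ hq)
    obtain ⟨L3, e3, i3⟩ := ext_lin e2.1 i2 (e2.2.1 _ i1) (a m) 1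
    have hsz : msize (C (a m) * (monomial m 1 * q) +
        C 1 * ∑ m ∈ I, C (a m) * (monomial m 1 * q)) ≤ N * msize q := by
      refine (msize_add _ _).trans ?_
      have c1 : msize (C (a m) * (monomial m 1 * q)) ≤ msize q :=
        (msize_Cmul _ _).trans (msize_monomial_mul _ _)
      have c2 : msize (C 1 * ∑ m ∈ I, C (a m) * (monomial m 1 * q)) ≤ I.card * msize q := by
        refine (msize_Cmul _ _).trans ((msize_sum _ _).trans ?_)
        refine (Finset.sum_le_card_nsmul _ _ (msize q) fun m' _ => ?_).trans (by simp)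
        exact (msize_Cmul _ _).trans (msize_monomial_mul _ _)
      have c3 : (I.card + 1) * msize q ≤ N * msize q := Nat.mul_le_mul_right _ hN
      rw [add_mul, one_mul] at c3
      omega
    refine ⟨L3, ((e1.trans e2).trans e3).mono ?_, ?_⟩
    · have : (I.card + 1) * ((20 + N) * msize q) =
        I.card * ((20 + N) * msize q) + 20 * msize q + N * msize q := by ring
      rw [this]
      omega
    · rw [Finset.sum_insert hm]
      simpa using i3

theorem ext_pol {G : Finset (Cl V)} (q p : Pol V) (hp : p.totalDegree ≤ 20)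
    (L : List (Pol V)) (hL : Der G L) (hq : In L q) :
      ∃ L', Ext G L L' (msize p * ((20 + msize p) * msize q)) ∧ In L' (p * q) := by
  classical
  obtain ⟨L', h1, h2⟩ := ext_pol_aux (G := G) q (fun m => p.coeff m) (msize p) p.support
    (fun m hm => by
      have h := MvPolynomial.le_totalDegree hm
      have h' : m.degree = m.sum fun _ e => e := by
        rw [Finsupp.degree_apply]; rfl
      rw [h']
      exact h.trans hp) le_rfl L hL hq
  refine ⟨L', h1, ?_⟩
  have h3 : p * q = ∑ m ∈ p.support, C (p.coeff m) * (monomial m 1 * q) := by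
    conv_lhs => rw [p.as_sum]
    rw [Finset.sum_mul]
    refine Finset.sum_congr rfl fun m _ => ?_
    rw [← mul_assoc, C_mul_monomial, mul_one]
  rw [h3]
  exact h2

theorem msize_pmul (p q : Pol V) : msize (p * q) ≤ msize p * msize q := by
  classical
  conv_lhs => rw [p.as_sum]
  rw [Finset.sum_mul]
  refine (msize_sum _ _).trans ?_
  refine (Finset.sum_le_card_nsmul _ _ (msize q) fun m _ => ?_).trans (by simp [msize])
  have : monomial m (p.coeff m) * q = C (p.coeff m) * (monomial m 1 * q) := by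
    rw [← mul_assoc, C_mul_monomial, mul_one]
  rw [this]
  exact (msize_Cmul _ _).trans (msize_monomial_mul _ _)

/-- A sum of products of derivable polynomials of size at most `3` with polynomials. -/
theorem ext_sum {G : Finset (Cl V)} {ι : Type} (q p : ι → Pol V) (s N : ℕ)
    (I : Finset ι) (hp : ∀ i ∈ I, (p i).totalDegree ≤ 20) (hN : I.card ≤ N)
    (hs : ∀ i ∈ I, msize (p i) ≤ s) (hq3 : ∀ i ∈ I, msize (q i) ≤ 3)
    (hq : ∀ i ∈ I, ∀ L : List (Pol V), Der G L → ∃ L', Ext G L L' 3 ∧ In L' (q i))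
    (L : List (Pol V)) (hL : Der G L) :
      ∃ L', Ext G L L' (I.card * (3 + s * ((20 + s) * 3) + N * (s * 3))) ∧
        In L' (∑ i ∈ I, p i * q i) := by
  classical
  induction I using Finset.induction_on with
  | empty =>
    simpa using ext_zero hL
  | insert i I hi ih =>
    rw [Finset.card_insert_of_notMem hi] at hN ⊢
    have hsub : ∀ j ∈ I, j ∈ insert i I := fun j hj => Finset.mem_insert_of_mem hj
    have hii : i ∈ insert i I := Finset.mem_insert_self _ _
    obtain ⟨L1, e1, i1⟩ := ih (fun j hj => hp j (hsub j hj)) (by omega)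
      (fun j hj => hs j (hsub j hj)) (fun j hj => hq3 j (hsub j hj)) (fun j hj => hq j (hsub j hj))
    obtain ⟨L2, e2, i2⟩ := hq i hii L1 e1.1
    obtain ⟨L3, e3, i3⟩ := ext_pol (q i) (p i) (hp i hii) L2 e2.1 i2
    obtain ⟨L4, e4, i4⟩ := ext_lin e3.1 i3 (e3.2.1 _ (e2.2.1 _ i1)) 1 1
    refine ⟨L4, (((e1.trans e2).trans e3).trans e4).mono ?_, ?_⟩
    · have hi3 : msize (p i) * ((20 + msize (p i)) * msize (q i)) ≤ s * ((20 + s) * 3) :=
        Nat.mul_le_mul (hs i hii) (Nat.mul_le_mul (by have := hs i hii; omega) (hq3 i hii))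
      have hb : ∀ j ∈ insert i I, msize (p j * q j) ≤ s * 3 := fun j hj =>
        (msize_pmul _ _).trans (Nat.mul_le_mul (hs j hj) (hq3 j hj))
      have hi4 : msize (C 1 * (p i * q i) + C 1 * ∑ j ∈ I, p j * q j) ≤ N * (s * 3) := by
        refine (msize_add _ _).trans ?_
        have c1 : msize (C 1 * (p i * q i)) ≤ s * 3 := (msize_Cmul _ _).trans (hb i hii)
        have c2 : msize (C 1 * ∑ j ∈ I, p j * q j) ≤ I.card * (s * 3) := by
          refine (msize_Cmul _ _).trans ((msize_sum _ _).trans ?_)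
          exact (Finset.sum_le_card_nsmul _ _ (s * 3) fun j hj => hb j (hsub j hj)).trans (by simp)
        have c3 : (I.card + 1) * (s * 3) ≤ N * (s * 3) := Nat.mul_le_mul_right _ hN
        rw [add_mul, one_mul] at c3
        omega
      have : (I.card + 1) * (3 + s * ((20 + s) * 3) + N * (s * 3)) =
        I.card * (3 + s * ((20 + s) * 3) + N * (s * 3)) + 3 + s * ((20 + s) * 3) +
          N * (s * 3) := by ring
      rw [this]
      omega
    · rw [Finset.sum_insert hi]
      simpa using i4

end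

end Pool.Agent.T9h65.MB
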